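import Mathlib
import Pool.Agent.N102.EC.Stm
import Pool.Agent.H379R3.Reg

/-!
# One-dimensional regular local rings embed into power series (helper37, project EC of helper102)
-/

set_option autoImplicit false

universe u

open IsLocalRing

namespace Pool.Agent.N37.EC

section

variable {k P : Type u} [Field k] [CommRing P] [Algebra k P]

/-- `a` has the expansion `F` in powers of `x` -/
def Exp (x : P) (a : P) (F : PowerSeries k) : Prop :=
  ∀ n : ℕ, x ^ n ∣ a - Polynomial.aeval x (PowerSeries.trunc n F)

theorem Exp.add {x a b : P} {F G : PowerSeries k} (h : Exp x a F) (h' : Exp x b G) :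
    Exp x (a + b) (F + G) := by
  intro n
  have e : PowerSeries.trunc n (F + G) = PowerSeries.trunc n F + PowerSeries.trunc n G := by
    ext i
    simp only [PowerSeries.coeff_trunc, Polynomial.coeff_add, map_add]
  have h1 := dvd_add (h n) (h' n)
  rw [e, map_add]
  convert h1 using 1
  ring

theorem Exp.const (x : P) (c : k) : Exp x (algebraMap k P c) (PowerSeries.C c) := by
  intro n
  rcases Nat.eq_zero_or_pos n with rfl | hn
  · rw [pow_zero]
    exact one_dvd _
  · obtain ⟨m, rfl⟩ : ∃ m, n = m + 1 := ⟨n - 1, by omega⟩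
    have e : PowerSeries.trunc (m + 1) (PowerSeries.C c) = Polynomial.C c := by
      ext i
      rw [PowerSeries.coeff_trunc, PowerSeries.coeff_C, Polynomial.coeff_C]
      split_ifs <;> first | rfl | omega
    rw [e, Polynomial.aeval_C, sub_self]
    exact dvd_zero _

theorem dvd_of_coeff (x : P) (n : ℕ) (p : Polynomial k) (h : ∀ i < n, p.coeff i = 0) :
    x ^ n ∣ Polynomial.aeval x p := by
  obtain ⟨q, rfl⟩ := (Polynomial.X_pow_dvd_iff).2 h
  rw [map_mul, map_pow, Polynomial.aeval_X]
  exact dvd_mul_right _ _

theorem Exp.mul {x a b : P} {F G : PowerSeries k} (h : Exp x a F) (h' : Exp x b G) :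
    Exp x (a * b) (F * G) := by
  intro n
  obtain ⟨u, hu⟩ := h n
  obtain ⟨v, hv⟩ := h' n
  have h2 := dvd_of_coeff x n (PowerSeries.trunc n F * PowerSeries.trunc n G -
    PowerSeries.trunc n (F * G)) (fun i hi => by
      rw [Polynomial.coeff_sub, PowerSeries.coeff_trunc, if_pos hi,
        PowerSeries.coeff_mul_eq_coeff_trunc_mul_trunc F G hi, ← Polynomial.coe_mul,
        Polynomial.coeff_coe, sub_self])
  rw [map_sub, map_mul] at h2
  have e : a * b - Polynomial.aeval x (PowerSeries.trunc n (F * G)) =
      x ^ n * (u * b + Polynomial.aeval x (PowerSeries.trunc n F) * v) +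
      (Polynomial.aeval x (PowerSeries.trunc n F) * Polynomial.aeval x (PowerSeries.trunc n G) -
        Polynomial.aeval x (PowerSeries.trunc n (F * G))) := by
    linear_combination b * hu + Polynomial.aeval x (PowerSeries.trunc n F) * hv
  rw [e]
  exact dvd_add (dvd_mul_right _ _) h2

theorem Exp.exists {x : P} (hx : ∀ a : P, ∃ c : k, x ∣ a - algebraMap k P c) (a : P) :
    ∃ F : PowerSeries k, Exp x a F := by
  choose c hc using hx
  choose r hr using hc
  let s : ℕ → P := fun n => Nat.rec a (fun _ b => r b) n
  have hs0 : s 0 = a := rfl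
  have hs : ∀ n, s (n + 1) = r (s n) := fun n => rfl
  refine ⟨PowerSeries.mk fun n => c (s n), fun n => ⟨s n, ?_⟩⟩
  induction n with
  | zero => simp [hs0]
  | succ n ih =>
    have e : PowerSeries.trunc (n + 1) (PowerSeries.mk fun n => c (s n)) =
        PowerSeries.trunc n (PowerSeries.mk fun n => c (s n)) +
          Polynomial.monomial n (c (s n)) := by
      rw [PowerSeries.trunc_succ, PowerSeries.coeff_mk]
    rw [e, map_add, ← sub_sub, ih, Polynomial.aeval_monomial, hs]
    have h1 := hr (s n)
    linear_combination x ^ n * h1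

theorem Exp.unique [IsDomain P] {x : P} (hx : x ≠ 0) (hu : ¬ IsUnit x) {a : P}
    {F G : PowerSeries k} (h : Exp x a F) (h' : Exp x a G) : F = G := by
  by_contra hne
  have hex : ∃ n, PowerSeries.coeff n F ≠ PowerSeries.coeff n G := by
    by_contra hcon
    push Not at hcon
    exact hne (PowerSeries.ext hcon)
  classical
  obtain ⟨m, hm, hmin⟩ : ∃ m, PowerSeries.coeff m F ≠ PowerSeries.coeff m G ∧
      ∀ i < m, PowerSeries.coeff i F = PowerSeries.coeff i G :=
    ⟨Nat.find hex, Nat.find_spec hex, fun i hi => not_not.1 (Nat.find_min hex hi)⟩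
  have e : PowerSeries.trunc (m + 1) F - PowerSeries.trunc (m + 1) G =
      Polynomial.monomial m (PowerSeries.coeff m F - PowerSeries.coeff m G) := by
    ext i
    rw [Polynomial.coeff_sub, PowerSeries.coeff_trunc, PowerSeries.coeff_trunc,
      Polynomial.coeff_monomial]
    rcases lt_trichotomy i m with hi | hi | hi
    · rw [if_pos (by omega), if_pos (by omega), if_neg (by omega), hmin i hi, sub_self]
    · subst hi
      rw [if_pos (by omega), if_pos (by omega), if_pos rfl]
    · rw [if_neg (by omega), if_neg (by omega), if_neg (by omega), sub_self]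
  have h1 := dvd_sub (h' (m + 1)) (h (m + 1))
  have h2 : a - Polynomial.aeval x (PowerSeries.trunc (m + 1) G) -
      (a - Polynomial.aeval x (PowerSeries.trunc (m + 1) F)) =
      x ^ m * algebraMap k P (PowerSeries.coeff m F - PowerSeries.coeff m G) := by
    have h3 := congrArg (Polynomial.aeval x) e
    rw [map_sub, Polynomial.aeval_monomial] at h3
    rw [mul_comm, ← h3]
    ring
  rw [h2, pow_succ] at h1
  have h4 := (mul_dvd_mul_iff_left (pow_ne_zero m hx)).1 h1
  have h5 : IsUnit (algebraMap k P (PowerSeries.coeff m F - PowerSeries.coeff m G)) :=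
    (IsUnit.mk0 _ (sub_ne_zero.2 hm)).map _
  exact hu (isUnit_of_dvd_unit h4 h5)

end

theorem t_dvr : Pool.Agent.N102.EC.S_DVR.{u} := by
  intro k P _ _ _ _ hdim hres
  have hdom := Pool.Agent.H379R3.isDomain P
  have h1 := Pool.Agent.H379R3.finrank_cotangent (B := P)
  rw [hdim] at h1
  have h2 : Module.finrank (ResidueField P) (CotangentSpace P) = 1 := by exact_mod_cast h1
  have hdvr : IsDiscreteValuationRing P := finrank_CotangentSpace_eq_one_iff.1 h2
  obtain ⟨x, hx⟩ := IsDiscreteValuationRing.exists_irreducible P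
  have hm := hx.maximalIdeal_eq
  have hres' : ∀ a : P, ∃ c : k, x ∣ a - algebraMap k P c := by
    intro a
    obtain ⟨c, hc⟩ := hres a
    rw [hm, Ideal.mem_span_singleton] at hc
    exact ⟨c, hc⟩
  choose φ hφ using fun a : P => Exp.exists (k := k) hres' a
  have huniq : ∀ (a : P) (F : PowerSeries k), Exp x a F → φ a = F := fun a F h =>
    Exp.unique hx.ne_zero hx.not_isUnit (hφ a) h
  have hC : ∀ c : k, φ (algebraMap k P c) = PowerSeries.C c := fun c =>
    huniq _ _ (Exp.const x c)
  refine ⟨{ toFun := φ
            map_one' := by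
              have := hC 1
              rwa [map_one, map_one] at this
            map_mul' := fun a b => huniq _ _ ((hφ a).mul (hφ b))
            map_zero' := by
              have := hC 0
              rwa [map_zero, map_zero] at this
            map_add' := fun a b => huniq _ _ ((hφ a).add (hφ b))
            commutes' := fun c => hC c }, ?_⟩
  rw [injective_iff_map_eq_zero]
  intro a ha
  have h3 : φ a = 0 := ha
  have h4 : ∀ n : ℕ, a ∈ maximalIdeal P ^ n := by
    intro n
    have h5 := hφ a n
    rw [h3, map_zero, map_zero, sub_zero] at h5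
    rw [hm, Ideal.span_singleton_pow, Ideal.mem_span_singleton]
    exact h5
  have h6 := Ideal.iInf_pow_eq_bot_of_isLocalRing (maximalIdeal P) Ideal.IsPrime.ne_top'
  have h7 : a ∈ ⨅ i : ℕ, maximalIdeal P ^ i := (Ideal.mem_iInf).2 h4
  rw [h6] at h7
  exact h7

end Pool.Agent.N37.EC
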